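import Pool.Agent.S7.Main

/-!
# MP_13664e_an, Q1: every bounded minimal system satisfies the Sarnak conjecture

`T` is a homeomorphism of a compact metric space `X`; `(X, T)` is minimal and bounded: one number
`M` bounds the topological sequence entropies `h_A (T)` of all strictly increasing sequences `A` of
positive integers. Then `(1/N) ∑_{n ≤ N} g (T^n x) μ(n) → 0` for all points `x` and all continuous
`g : X → ℂ`.
-/

set_option autoImplicit false

namespace Pool.Agent.Results.MP_13664e_an.BoundedMinimal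

open Filter Topology

/-- `N(⋁_{i < n} T^{-a i} 𝒰)` for the cover `𝒰 = {U_1, …, U_k}` (indices `i < n`, i.e. the first `n` terms of `a`):
the least number of words `w` of length `n` whose cells `⋂_{i<n} T^{-a i} U_{w i}` cover `X`. -/
noncomputable def cov {X : Type*} (T : X → X) (a : ℕ → ℕ) {k : ℕ} (U : Fin k → Set X) (n : ℕ) : ℕ :=
  sInf {c | ∃ W : Finset (Fin n → Fin k), W.card = c ∧
    ∀ x, ∃ w ∈ W, ∀ i : Fin n, T^[a i] x ∈ U (w i)}

/-- `(X, T)` is bounded: there is `M` with `h_A (T, 𝒰) ≤ M` for all strictly increasing sequences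
`A = (a 0 < a 1 < …)` of positive integers and all finite open covers `𝒰`. -/
def Bounded {X : Type*} [TopologicalSpace X] (T : X → X) : Prop :=
  ∃ M : ℝ, ∀ a : ℕ → ℕ, StrictMono a → 0 < a 0 → ∀ (k : ℕ) (U : Fin k → Set X),
    (∀ i, IsOpen (U i)) → (⋃ i, U i) = Set.univ →
    limsup (fun n : ℕ => (((Real.log (cov T a U n)) / n : ℝ) : EReal)) atTop ≤ (M : EReal)

/-- `(X, T)` is minimal: no proper non-empty closed set is invariant. -/
def Minimal {X : Type*} [TopologicalSpace X] (T : X → X) : Prop :=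
  ∀ F : Set X, IsClosed F → T '' F = F → F.Nonempty → F = Set.univ

theorem result {X : Type*} [MetricSpace X] [CompactSpace X] (T : X ≃ₜ X) (hm : Minimal T)
    (hb : Bounded T) (g : C(X, ℂ)) (x : X) :
    Tendsto (fun N : ℕ => (N : ℂ)⁻¹ * ∑ n ∈ Finset.Icc 1 N,
      g ((⇑T)^[n] x) * ((ArithmeticFunction.moebius n : ℤ) : ℂ)) atTop (𝓝 0) := by
  borelize X
  have : Nonempty X := ⟨x⟩
  exact Pool.Agent.S7.final T hm hb x g

end Pool.Agent.Results.MP_13664e_an.BoundedMinimal
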